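import Pool.Agent.Q302.NH.Small

/-!
MP_547692_lc, Q1.  In ZFC: for every uncountable locally compact commutative Polish group `G`, there
is a set `S ⊆ G` of cardinality `non(N)` such that `S × S` is not naively Haar null in `G × G` if and
only if `non(N)` is the continuum.  (For the continuum the same `S = G` works for all groups.)
-/

set_option autoImplicit false

open MeasureTheory Cardinal

namespace Pool.Agent.Results.MP_547692_lc.ContinuumDichotomy

/-- `X` is naively Haar null in `H`: for some Borel probability measure all two-sided translates of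
`X` have (outer) measure zero. -/
def NaivelyHaarNull {H : Type} [Group H] [MeasurableSpace H] (X : Set H) : Prop :=
  ∃ μ : Measure H, IsProbabilityMeasure μ ∧ ∀ g h : H, μ ((fun x => g * x * h) '' X) = 0

/-- The least cardinality of a set of positive outer Haar measure. -/
noncomputable def nonN (G : Type) [Group G] [TopologicalSpace G] [IsTopologicalGroup G]
    [LocallyCompactSpace G] [MeasurableSpace G] [BorelSpace G] : Cardinal :=
  sInf {κ | ∃ A : Set G, #A = κ ∧ Measure.haar A ≠ 0}

theorem mk_group (G : Type) [Group G] [TopologicalSpace G] [PolishSpace G] [Uncountable G]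
    [MeasurableSpace G] [BorelSpace G] : #G = 𝔠 := by
  have h1 : ¬ Countable G := not_countable_iff.2 inferInstance
  have h2 : ¬ Countable ℝ := not_countable_iff.2 inferInstance
  have e : G ≃ᵐ ℝ := PolishSpace.measurableEquivOfNotCountable h1 h2
  rw [mk_congr e.toEquiv, mk_real]

/-- (1) For all uncountable locally compact Polish groups: `non(N)` is at most the continuum, and if
it is the continuum then there is a set `S` as in Q1.
(2) For the commutative ones: if `non(N)` is less than the continuum, there is none; so there is
such a set if and only if `non(N)` is the continuum.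
(3) For every uncountable commutative Polish group `G`, locally compact or not, and every `S ⊆ G` of
cardinality less than the continuum, `S × S` is naively Haar null in `G × G`. -/
theorem result :
    (∀ (G : Type) [Group G] [TopologicalSpace G] [IsTopologicalGroup G] [PolishSpace G]
      [LocallyCompactSpace G] [Uncountable G] [MeasurableSpace G] [BorelSpace G],
      nonN G ≤ 𝔠 ∧ (nonN G = 𝔠 → ∃ S : Set G, #S = nonN G ∧ ¬ NaivelyHaarNull (S ×ˢ S))) ∧
    (∀ (G : Type) [CommGroup G] [TopologicalSpace G] [IsTopologicalGroup G] [PolishSpace G]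
      [LocallyCompactSpace G] [Uncountable G] [MeasurableSpace G] [BorelSpace G],
      (∃ S : Set G, #S = nonN G ∧ ¬ NaivelyHaarNull (S ×ˢ S)) ↔ nonN G = 𝔠) ∧
    (∀ (G : Type) [CommGroup G] [TopologicalSpace G] [IsTopologicalGroup G] [PolishSpace G]
      [Uncountable G] [MeasurableSpace G] [BorelSpace G] (S : Set G),
      #S < 𝔠 → NaivelyHaarNull (S ×ˢ S)) := by
  have hle : ∀ (G : Type) [Group G] [TopologicalSpace G] [IsTopologicalGroup G] [PolishSpace G]
      [LocallyCompactSpace G] [Uncountable G] [MeasurableSpace G] [BorelSpace G],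
      nonN G ≤ 𝔠 := by
    intro G _ _ _ _ _ _ _ _
    refine csInf_le' ⟨Set.univ, ?_, ?_⟩
    · rw [mk_univ]; exact mk_group G
    · exact (Measure.measure_univ_pos.2 (NeZero.ne _)).ne'
  have hex : ∀ (G : Type) [Group G] [TopologicalSpace G] [IsTopologicalGroup G] [PolishSpace G]
      [LocallyCompactSpace G] [Uncountable G] [MeasurableSpace G] [BorelSpace G],
      nonN G = 𝔠 → ∃ S : Set G, #S = nonN G ∧ ¬ NaivelyHaarNull (S ×ˢ S) := by
    intro G _ _ _ _ _ _ _ _ h
    refine ⟨Set.univ, ?_, ?_⟩
    · rw [h, mk_univ]; exact mk_group G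
    · rw [Set.univ_prod_univ]
      exact Pool.Agent.Q302.NH.not_NHN_univ
  refine ⟨fun G _ _ _ _ _ _ _ _ => ⟨hle G, hex G⟩, ?_, ?_⟩
  · intro G _ _ _ _ _ _ _ _
    refine ⟨?_, hex G⟩
    rintro ⟨S, hS, hn⟩
    by_contra hne
    apply hn
    exact Pool.Agent.Q302.NH.small_square G S (by rw [hS]; exact lt_of_le_of_ne (hle G) hne)
  · intro G _ _ _ _ _ _ _ S hS
    exact Pool.Agent.Q302.NH.small_square G S hS

end Pool.Agent.Results.MP_547692_lc.ContinuumDichotomy
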